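import Pool.Agent.MP_ca0a54_nt.H29.Spec
import Pool.Agent.MP_ca0a54_nt.L0.Zeros

/-!
The core inequality and the passage to the zeros of `ζ`.
-/

open Complex MeasureTheory Filter Topology

namespace Pool.Agent.MP_ca0a54_nt.H29

open Pool.Agent.MP_ca0a54_nt.L0 Pool.Agent.MP_ca0a54_nt.H24

theorem sigma_pos {ab : ℝ} (h1 : Real.pi < ab) (h2 : ab ≤ 4) :
    0 < Real.cos (3 * ab / 2) - Real.cos (ab / 2) := by
  have hpi := Real.pi_gt_d2
  have e1 : Real.cos (ab / 2) < 0 :=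
    Real.cos_neg_of_pi_div_two_lt_of_lt (by linarith) (by linarith)
  have e2 : 0 < Real.cos (3 * ab / 2) := by
    rw [← Real.cos_sub_two_pi]
    exact Real.cos_pos_of_mem_Ioo ⟨by linarith, by linarith⟩
  linarith

theorem exists_Y {σ C₁ : ℝ} (hσ : 0 < σ) (hC : 1 ≤ C₁) :
    ∃ Y : ℝ, 7 ≤ Y ∧ 1 + C₁ * (64 * (1 + Real.log (1 + 4 * Y))) ^ 2 ≤ Y / 8 * σ := by
  obtain ⟨z, hz1, hz2⟩ : ∃ z : ℝ, 3 ≤ z ∧ 40 * (1 + 102400 * C₁) / σ ≤ z :=
    ⟨max 3 _, le_max_left _ _, le_max_right _ _⟩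
  refine ⟨(z ^ 4 - 1) / 4, ?_, ?_⟩
  · have : 3 ^ 4 ≤ z ^ 4 := by gcongr
    linarith
  · have hz0 : 0 < z := by linarith
    have e1 : 1 + 4 * ((z ^ 4 - 1) / 4) = z ^ 4 := by ring
    rw [e1, Real.log_pow]
    have e2 : Real.log z ≤ z - 1 := Real.log_le_sub_one_of_pos hz0
    have e3 : 0 ≤ Real.log z := Real.log_nonneg (by linarith)
    have e4 : (64 * (1 + ((4 : ℕ) : ℝ) * Real.log z)) ^ 2 ≤ (320 * z) ^ 2 := by
      refine pow_le_pow_left₀ (by positivity) ?_ 2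
      push_cast
      linarith
    rw [div_le_iff₀ hσ] at hz2
    have e5 : 1 ≤ z ^ 2 := by nlinarith
    have e6 : 4 / 5 * z ^ 3 ≤ z ^ 4 - 1 := by
      have k1 : 1 ≤ z ^ 3 := one_le_pow₀ (by linarith)
      have k2 : z ^ 3 * 3 ≤ z ^ 3 * z := by gcongr
      nlinarith
    have e7 : z ^ 2 * (40 * (1 + 102400 * C₁)) ≤ z ^ 2 * (z * σ) := by gcongr
    have e8 : 4 / 5 * z ^ 3 * σ ≤ (z ^ 4 - 1) * σ := by gcongr
    have e9 : C₁ * (64 * (1 + ((4 : ℕ) : ℝ) * Real.log z)) ^ 2 ≤ C₁ * (320 * z) ^ 2 := by gcongr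
    have k1 : z ^ 2 * (40 * (1 + 102400 * C₁)) = 40 * (z ^ 2 + C₁ * (320 * z) ^ 2) := by ring
    have k2 : z ^ 2 * (z * σ) = z ^ 3 * σ := by ring
    have k3 : (z ^ 4 - 1) / 4 / 8 * σ = (z ^ 4 - 1) * σ / 32 := by ring
    have k4 : 4 / 5 * z ^ 3 * σ = 4 / 5 * (z ^ 3 * σ) := by ring
    rw [k1, k2] at e7
    rw [k4] at e8
    rw [k3]
    generalize C₁ * (64 * (1 + ((4 : ℕ) : ℝ) * Real.log z)) ^ 2 = A at *
    generalize C₁ * (320 * z) ^ 2 = B at *
    generalize (z ^ 4 - 1) * σ = D at *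
    generalize z ^ 3 * σ = E at *
    linarith

theorem pt_le {b r μ lam β ν h : ℝ} (hb : 0 ≤ b) (hlam : 0 < lam) (hβ : 0 ≤ β) (hν : 0 ≤ ν)
    (hμ : μ = min 1 β) (hh : h ≤ b * (μ + ν)) :
    max 0 h * r ^ 2 ≤ lam / 4 * (b ^ 4 + r ^ 8) + (β + ν ^ 2) / lam := by
  have m0 : 0 ≤ μ := hμ ▸ le_min zero_le_one hβ
  have m1 : μ ≤ 1 := hμ ▸ min_le_left _ _
  have m2 : μ ≤ β := hμ ▸ min_le_right _ _
  have h1 : max 0 h ≤ b * (μ + ν) := max_le (by positivity) hh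
  have h2 : max 0 h * r ^ 2 ≤ b * r ^ 2 * (μ + ν) := by
    calc _ ≤ b * (μ + ν) * r ^ 2 := by gcongr
      _ = _ := by ring
  have h3 : b * r ^ 2 * (μ + ν) ≤ lam / 2 * (b * r ^ 2) ^ 2 + (μ + ν) ^ 2 / (2 * lam) := by
    have : lam / 2 * (b * r ^ 2) ^ 2 + (μ + ν) ^ 2 / (2 * lam) - b * r ^ 2 * (μ + ν) =
        (lam * (b * r ^ 2) - (μ + ν)) ^ 2 / (2 * lam) := by
      field_simp
      ring
    have h4 : 0 ≤ (lam * (b * r ^ 2) - (μ + ν)) ^ 2 / (2 * lam) := by positivity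
    linarith
  have h5 : (b * r ^ 2) ^ 2 ≤ (b ^ 4 + r ^ 8) / 2 := by nlinarith [sq_nonneg (b ^ 2 - r ^ 4)]
  have h6 : (μ + ν) ^ 2 ≤ 2 * (β + ν ^ 2) := by nlinarith [sq_nonneg (μ - ν)]
  have h7 : (μ + ν) ^ 2 / (2 * lam) ≤ (β + ν ^ 2) / lam := by
    rw [div_le_div_iff₀ (by positivity) hlam]
    nlinarith
  have h8 : lam / 2 * (b * r ^ 2) ^ 2 ≤ lam / 2 * ((b ^ 4 + r ^ 8) / 2) := by gcongr
  linarith

theorem RC_cont (T Y : ℝ) (χ : ℕ → ℂ) : Continuous (RC T Y χ) := by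
  unfold RC dp ds np
  fun_prop

theorem core : ArgStmt → RepStmt → RbStmt → MvStmt → CntStmt → CoreStmt := by
  intro hA hR hB hM hN C ab hC h1 h2
  obtain ⟨C₁, hC₁, hM⟩ := hM
  have hσ := sigma_pos h1 h2
  have hpi := Real.pi_gt_d2
  obtain ⟨Y, hY, hYσ⟩ := exists_Y hσ hC₁
  set X : ℝ := 64 * (1 + Real.log (1 + 4 * Y)) with hX
  have hX1 : 1 ≤ X := by
    have := Real.log_nonneg (show 1 ≤ 1 + 4 * Y by linarith)
    linarith
  obtain ⟨C₄, hC₄, hB⟩ := hB C Y hC hY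
  obtain ⟨C₅, hC₅, hN⟩ := hN C hC
  refine ⟨(1 / (1600 * C₄ * C₅)) ^ 2, by positivity, ?_⟩
  have hab : 0 < ab := by linarith
  filter_upwards [hA C hC, hR C Y hC hY, hB, hM C Y ab X hC hY (by linarith) h2 hX1, hN,
    Real.tendsto_log_atTop.eventually (eventually_ge_atTop (80 * C * C₄)),
    eventually_ge_atTop (1600 * C₄)] with T a1 a2 a3 a4 a5 hL hT U m hZ
  obtain ⟨χ, hχ, hrep⟩ := a2
  set L := Real.log T with hLd
  have hT0 : 0 < T := by linarith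
  have hL1 : 1 ≤ L := by nlinarith
  have hL0 : 0 < L := by linarith
  obtain ⟨b1, b2⟩ := a3 χ U m ab hZ (hrep U m hZ) hab h2
  have hy0 : 0 < 1 / (Y * L) := by positivity
  have hy1 : 1 / (Y * L) ≤ 1 / L := by
    refine one_div_le_one_div_of_le hL0 ?_
    nlinarith
  have hy2 : 1 / (Y * L) ≤ 1 := hy1.trans (by rw [div_le_one hL0]; exact hL1)
  obtain ⟨c1, c2, c3⟩ := a5 U m (ab / L) (1 / (Y * L)) hZ (by positivity) (by gcongr) hy0 hy1
  have d1 := a4 χ U m hχ hZ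
  set t₁ : ℝ := 3 * T / 2 - T / 30 with ht₁
  set t₂ : ℝ := 3 * T / 2 + T / 30 with ht₂
  have h12 : t₁ ≤ t₂ := by linarith
  set β := beta U m (ab / L) (1 / (Y * L)) with hβ
  set ν : ℝ := 8 * C / L with hν
  set lam : ℝ := 1 / (10 * C₄) with hlam
  have hlam0 : 0 < lam := by positivity
  have hRc := RC_cont T Y χ
  have i1 : IntervalIntegrable
      (fun x => max 0 (exp (-I * (ab / 2 : ℝ)) * BC T Y ab x).im * ‖RC T Y χ x‖ ^ 2) volume t₁ t₂ := by
    refine ContinuousOn.intervalIntegrable_of_Icc h12 ?_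
    refine ContinuousOn.mul ?_ (hRc.norm.pow 2).continuousOn
    exact ContinuousOn.sup continuousOn_const
      (continuous_im.comp_continuousOn (continuousOn_const.mul b1))
  have i2 : IntervalIntegrable (fun x => ‖BC T Y ab x‖ ^ 4 + ‖RC T Y χ x‖ ^ 8) volume t₁ t₂ :=
    ContinuousOn.intervalIntegrable_of_Icc h12
      ((b1.norm.pow 4).add (hRc.norm.pow 8).continuousOn)
  have i3 : IntervalIntegrable β volume t₁ t₂ := c1.intervalIntegrable _ _
  have i4 : IntervalIntegrable (fun x => (β x + ν ^ 2) / lam) volume t₁ t₂ :=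
    (i3.add intervalIntegrable_const).div_const _
  have e1 : ∫ x in t₁..t₂, max 0 (exp (-I * (ab / 2 : ℝ)) * BC T Y ab x).im * ‖RC T Y χ x‖ ^ 2 ≤
      ∫ x in t₁..t₂, (lam / 4 * (‖BC T Y ab x‖ ^ 4 + ‖RC T Y χ x‖ ^ 8) + (β x + ν ^ 2) / lam) := by
    refine intervalIntegral.integral_mono_on h12 i1 ((i2.const_mul _).add i4) fun x hx => ?_
    refine pt_le (norm_nonneg _) hlam0 (c2 x) (by positivity) rfl ?_
    refine a1 U m hZ ab _ x hab h2 hy0 hy2 ?_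
    rw [abs_le]
    constructor <;> linarith [hx.1, hx.2]
  rw [intervalIntegral.integral_add (i2.const_mul _) i4, intervalIntegral.integral_const_mul,
    intervalIntegral.integral_div, intervalIntegral.integral_add i3 intervalIntegrable_const,
    intervalIntegral.integral_const, smul_eq_mul] at e1
  have e2 : 1 ≤ Y / (2 * ab) * (Real.cos (3 * ab / 2) - Real.cos (ab / 2)) - C₁ * X ^ 2 := by
    have : Y / 8 ≤ Y / (2 * ab) := by
      refine div_le_div_of_nonneg_left (by linarith) (by positivity) (by linarith)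
    nlinarith
  have e3 : T / 20 * 1 ≤
      T / 20 * (Y / (2 * ab) * (Real.cos (3 * ab / 2) - Real.cos (ab / 2)) - C₁ * X ^ 2) := by
    gcongr
  have e4 : lam / 4 * ∫ x in t₁..t₂, (‖BC T Y ab x‖ ^ 4 + ‖RC T Y χ x‖ ^ 8) ≤ T / 40 := by
    calc _ ≤ lam / 4 * (C₄ * T) := by gcongr
      _ = T / 40 := by
        rw [hlam]
        field_simp
        ring
  set Sb := ∫ x in t₁..t₂, β x with hSb
  have e5 : T / 40 ≤ (Sb + (t₂ - t₁) * ν ^ 2) / lam := by linarith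
  rw [le_div_iff₀ hlam0] at e5
  have e6 : ν ≤ 1 / (10 * C₄) := by
    rw [hν, div_le_div_iff₀ hL0 (by positivity)]
    nlinarith
  have e7 : ν ^ 2 ≤ (1 / (10 * C₄)) ^ 2 := by gcongr
  have e8 : (1 / (10 * C₄)) ^ 2 ≤ 1 / (100 * C₄) := by
    rw [div_pow, div_le_div_iff₀ (by positivity) (by positivity)]
    nlinarith
  have e9 : (t₂ - t₁) * ν ^ 2 ≤ T / 15 * (1 / (100 * C₄)) := by
    have : t₂ - t₁ = T / 15 := by rw [ht₁, ht₂]; ring
    rw [this]
    gcongr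
    linarith
  set q : ℝ := T / C₄ with hq
  have hq1 : 1600 ≤ q := by
    rw [hq, le_div_iff₀ (by positivity)]
    linarith
  have f1 : T / 40 * lam = q / 400 := by
    rw [hlam, hq]
    field_simp
    ring
  have f2 : T / 15 * (1 / (100 * C₄)) = q / 1500 := by
    rw [hq]
    field_simp
    ring
  have f3 : q / 1600 ≤ C₅ * √((bad U m (ab / L)).card * T / L) := by linarith
  have f4 : q / (1600 * C₅) ≤ √((bad U m (ab / L)).card * T / L) := by
    rw [div_le_iff₀ (by positivity)]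
    linarith
  have f5 : (q / (1600 * C₅)) ^ 2 ≤ (bad U m (ab / L)).card * T / L :=
    (Real.le_sqrt (by positivity) (by positivity)).1 f4
  rw [le_div_iff₀ hL0] at f5
  have f6 : (q / (1600 * C₅)) ^ 2 * L = (1 / (1600 * C₄ * C₅)) ^ 2 * T * L * T := by
    rw [hq]
    field_simp
  rw [f6] at f5
  exact le_of_mul_le_mul_right f5 hT0

theorem main : ZmStmt → CoreStmt → MainStmt := by
  classical
  intro hZ hcore ε hε
  obtain ⟨C, hC, hZ⟩ := hZ
  set e : ℝ := min ε (1 / 10) with he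
  have he0 : 0 < e := lt_min hε (by norm_num)
  have he1 : e ≤ ε := min_le_left _ _
  have he2 : e ≤ 1 / 10 := min_le_right _ _
  have hpi := Real.pi_lt_d2
  have hpi0 := Real.pi_pos
  obtain ⟨c, hc, H⟩ := hcore C (Real.pi * (1 + 2 * e)) hC (by nlinarith) (by nlinarith)
  obtain ⟨T₀, hT₀⟩ := eventually_atTop.1 ((hZ.and H).and (eventually_gt_atTop (1 : ℝ)))
  refine ⟨c, hc, T₀, fun T hT => ?_⟩
  obtain ⟨⟨a1, a2⟩, hT1⟩ := hT₀ T hT
  have hL : 0 < Real.log T := Real.log_pos hT1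
  by_cases hloc : Loc T
  swap
  · left
    unfold Loc at hloc
    push Not at hloc
    obtain ⟨w, h1, h2, h3, h4⟩ := hloc
    refine ⟨1 / 2 + I * w, h3, by rwa [Zeros.pt_im], by rwa [Zeros.pt_im], ?_⟩
    rw [Zeros.pt_re]
    intro h5
    exact h4 (by linarith)
  right
  obtain ⟨U, m, hz⟩ := a1 hloc
  set a : ℝ := Real.pi * (1 + 2 * e) / Real.log T with ha
  have ha0 : 0 < a := by positivity
  have ha1 : a ≤ (1 / 2 + ε) * (2 * Real.pi / Real.log T) := by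
    have : a = (1 / 2 + e) * (2 * Real.pi / Real.log T) := by
      rw [ha]
      ring
    rw [this]
    gcongr
  have him : ∀ u : ℝ, (1 / 2 + I * u : ℂ).im = u := fun u => by rw [Zeros.pt_im, ofReal_re]
  have hU : ∀ u ∈ U, zf u = 0 ∧ T ≤ u ∧ u ≤ 2 * T := by
    intro u hu
    have h1 := hz.mem u hu
    have h2 := abs_le.1 h1
    exact ⟨(hz.zeros u (by simpa using h1)).2 ⟨u, hu, rfl⟩, by linarith [h2.1], by linarith [h2.2]⟩
  refine ⟨bad U m a, a2 U m hz, fun γ hγ => ?_⟩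
  obtain ⟨hγU, hb⟩ := Finset.mem_filter.1 hγ
  obtain ⟨g1, g2, g3⟩ := hU γ hγU
  rcases hb with hb | ⟨u', hu', hlt, hua⟩
  · refine ⟨1 / 2 + I * γ, 1 / 2 + I * γ, g1, g1, him γ, by rw [him]; exact g2, le_rfl,
      by rw [him]; exact g3, Or.inr ?_, fun σ _ h5 => lt_asymm h5.1 h5.2, by linarith⟩
    have h4 : (1 / 2 + I * γ : ℂ) ≠ 1 := fun h => by
      have h5 := congrArg Complex.im h
      rw [him, one_im] at h5
      linarith
    have h5 : HasDerivAt (fun w : ℂ => 1 / 2 + I * w) I (γ : ℂ) := by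
      simpa using ((hasDerivAt_id (γ : ℂ)).const_mul I).const_add (1 / 2)
    have h6 : HasDerivAt zf (deriv riemannZeta (1 / 2 + I * γ) * I) (γ : ℂ) :=
      (differentiableAt_riemannZeta h4).hasDerivAt.comp (γ : ℂ) h5
    have h7 := hz.mult γ hγU hb
    rw [h6.deriv] at h7
    exact (mul_eq_zero.1 h7).resolve_right I_ne_zero
  · obtain ⟨v, hv, hmin⟩ := (U.filter fun v => γ < v).exists_min_image id
      ⟨u', Finset.mem_filter.2 ⟨hu', hlt⟩⟩
    obtain ⟨hv1, hv2⟩ := Finset.mem_filter.1 hv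
    have h1 : v ≤ u' := hmin u' (Finset.mem_filter.2 ⟨hu', hlt⟩)
    obtain ⟨k1, k2, k3⟩ := hU v hv1
    refine ⟨1 / 2 + I * γ, 1 / 2 + I * v, g1, k1, him γ, by rw [him]; exact g2,
      by rw [him, him]; exact hv2.le, by rw [him]; exact k3, Or.inl fun h9 => ?_,
      fun σ hσ h9 => ?_, by rw [him, him]; linarith⟩
    · have h10 := congrArg Complex.im h9
      rw [him, him] at h10
      exact hv2.ne h10
    · rw [him, him] at h9
      have h10 : (1 / 2 + I * (-I * (σ - 1 / 2)) : ℂ) = σ := by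
        linear_combination (-(σ - 1 / 2)) * I_mul_I
      have h11 : (-I * (σ - 1 / 2)).re = σ.im := by simp
      have h12 := abs_le.1 (hz.mem γ hγU)
      have h13 := abs_le.1 (hz.mem v hv1)
      obtain ⟨u, hu, h14⟩ := (hz.zeros (-I * (σ - 1 / 2)) (by
        rw [h11, abs_le]
        constructor <;> linarith [h9.1, h9.2, h12.1, h13.2])).1 (by unfold zf; rw [h10]; exact hσ)
      have h15 : σ.im = u := by rw [← h11, h14, ofReal_re]
      have h16 : v ≤ u := hmin u (Finset.mem_filter.2 ⟨hu, h15 ▸ h9.1⟩)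
      linarith [h9.2]

end Pool.Agent.MP_ca0a54_nt.H29
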