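import Pool.Agent.MP_ca0a54_nt.H29.Core
import Pool.Agent.MP_ca0a54_nt.H1.PARG
import Pool.Agent.MP_ca0a54_nt.H1.PSEL
import Pool.Agent.MP_ca0a54_nt.H14.PMAJ
import Pool.Agent.MP_ca0a54_nt.H16.PREP
import Pool.Agent.MP_ca0a54_nt.H3.PZM
import Pool.Agent.MP_ca0a54_nt.H60.PMV
import Pool.Agent.MP_ca0a54_nt.H62.PQL
import Pool.Agent.MP_ca0a54_nt.H69.PRB
import Pool.Agent.MP_ca0a54_nt.H76.PCNT
import Pool.Agent.MP_ca0a54_nt.H88.PCMP
import Pool.Agent.MP_ca0a54_nt.H9.PS2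
import Pool.Agent.MP_ca0a54_nt.H97.PMOM

namespace Pool.Agent.MP_ca0a54_nt.H29

open Pool.Agent.MP_ca0a54_nt

theorem maj' : MajStmt := H14.maj H88.cmp H97.mom (H1.sel H88.cmp)

theorem core' : CoreStmt :=
  core (H1.arg H88.cmp H88.seg) (H16.rep H88.cr H88.seg) (H69.rb H88.seg maj')
    (H60.mv H88.cr H88.seg H62.ql H9.s2) (H76.cnt H88.cmp maj')

theorem final : MainStmt := main H3.zm core'

end Pool.Agent.MP_ca0a54_nt.H29
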