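import Pool.Agent.MP_ca0a54_nt.H24.Spec

/-!
A positive proportion of small gaps when the zeros in the strip lie on the critical line:
definitions and the statements of the steps.
`L` always means `Real.log T`, `a = ab / L` is the gap, `y = Y / L` the shift, `y₀ = 1 / (Y L)` the
height of the line on which the mean value is taken.
-/

open Complex MeasureTheory Filter Topology

namespace Pool.Agent.MP_ca0a54_nt.H29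

open Pool.Agent.MP_ca0a54_nt.L0 Pool.Agent.MP_ca0a54_nt.H24

/-- The zeros of `zf` in the strip `T ≤ re w ≤ 2 T` are real. -/
def Loc (T : ℝ) : Prop := ∀ w : ℂ, T ≤ w.re → w.re ≤ 2 * T → zf w = 0 → w.im = 0

/-- `∑ m(u) / (w - u)`. -/
noncomputable def rs (U : Finset ℝ) (m : ℝ → ℕ) (w : ℂ) : ℂ :=
  rat 0 U (fun u => (m u : ℝ)) (fun u => u) w

/-- The Poisson sum `∑ m(u) y / ((x - u)^2 + y^2)`. -/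
noncomputable def Fs (U : Finset ℝ) (m : ℝ → ℕ) (x y : ℝ) : ℝ :=
  ∑ u ∈ U, (m u : ℝ) * (y / ((x - u) ^ 2 + y ^ 2))

/-- The zeros of `zf` with `|re w - 3 T / 2| ≤ T / 8` are the points of `U`, with multiplicities
`m`, and the logarithmic derivative is `rs U m` up to an almost constant term. -/
structure Zs (C T : ℝ) (U : Finset ℝ) (m : ℝ → ℕ) : Prop where
  zeros : ∀ w : ℂ, |w.re - 3 * T / 2| ≤ T / 8 → (zf w = 0 ↔ ∃ u ∈ U, w = u)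
  mem : ∀ u ∈ U, |u - 3 * T / 2| ≤ T / 8
  pos : ∀ u ∈ U, 1 ≤ m u
  mult : ∀ u ∈ U, 2 ≤ m u → deriv zf u = 0
  card : ∑ u ∈ U, (m u : ℝ) ≤ C * T * Real.log T
  loc : ∀ t : ℝ, |t - 3 * T / 2| ≤ T / 20 → ∃ κ : ℂ, ‖κ‖ ≤ C * Real.log T ∧
    |κ.im + Real.log T / 2| ≤ C ∧ ∀ w : ℂ, ‖w - t‖ ≤ √T → w.im < 0 →
    ‖ld w - rs U m w - κ‖ ≤ C * Real.log T / T * ‖w - t‖

/-- The angle under which the segment `[u - a, u]` is seen from `x - i y`. -/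
noncomputable def ang (a y x u : ℝ) : ℝ :=
  Real.arctan ((x + a - u) / y) - Real.arctan ((x - u) / y)

open Classical in
/-- The points that are multiple or have another point at distance less than `a` above them. -/
noncomputable def bad (U : Finset ℝ) (m : ℝ → ℕ) (a : ℝ) : Finset ℝ :=
  U.filter fun u => 2 ≤ m u ∨ ∃ u' ∈ U, u < u' ∧ u' < u + a

/-- The total angle of the bad segments. -/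
noncomputable def beta (U : Finset ℝ) (m : ℝ → ℕ) (a y x : ℝ) : ℝ :=
  ∑ u ∈ bad U m a, (m u : ℝ) * ang a y x u

/-- `ζ(s + y) / ζ(s)` at `s = 1/2 + i z`. -/
noncomputable def rho (y : ℝ) (z : ℂ) : ℂ := zf (z - y * I) / zf z

/-- The coefficients of the smoothly truncated `ζ(s + y) / ζ(s)`. -/
noncomputable def cf (T Y : ℝ) (χ : ℕ → ℂ) (n : ℕ) : ℂ := rc (Y / Real.log T : ℝ) 0 n * χ n

/-- The length of the mollifier. -/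
noncomputable def len (T Y : ℝ) : ℕ := ⌊T ^ (1 - 1 / (4 * Y))⌋₊

/-- The mollifier on the line `im w = -1 / (Y L)`. -/
noncomputable def RC (T Y : ℝ) (χ : ℕ → ℂ) (x : ℝ) : ℂ :=
  dp (cf T Y χ) (len T Y) (x - (1 / (Y * Real.log T) : ℝ) * I)

/-- `ζ(s) / ζ(s + i a)` on the line `im w = -1 / (Y L)`. -/
noncomputable def BC (T Y ab : ℝ) (x : ℝ) : ℂ :=
  Bq (ab / Real.log T) (x - (1 / (Y * Real.log T) : ℝ) * I)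

/-- A bounded cutoff that is almost `1` up to `T^(1 - 1/Y)`. -/
structure Cut (T Y X : ℝ) (χ : ℕ → ℂ) : Prop where
  bd : ∀ n, ‖χ n‖ ≤ X
  one : ∀ n : ℕ, 1 ≤ n → Real.log n ≤ (1 - 1 / Y) * Real.log T → ‖χ n - 1‖ ≤ 1 / T ^ 2

/-- The mollifier is bounded by an average of `ζ(s + y) / ζ(s)`. -/
def Rep (T Y : ℝ) (χ : ℕ → ℂ) : Prop := ∀ x : ℝ, |x - 3 * T / 2| ≤ T / 25 →
  ‖RC T Y χ x‖ ≤ 1 + 3 * ∫ s in (-(√T / 2))..(√T / 2),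
    ‖rho (Y / Real.log T) ((x + s : ℝ) - (1 / (Y * Real.log T) + 1 / Real.log T : ℝ) * I)‖ *
      km (Real.log T / (4 * Y)) (s - (1 / Real.log T : ℝ) * I)

/-- `V` majorizes `exp (Λ |ζ'/ζ| / L)` in boxes of size `Λ / L`. -/
def Maj (T Λ : ℝ) (V : ℝ → ℝ) : Prop := ∀ x : ℝ, |x - 3 * T / 2| ≤ T / 20 → ∀ w : ℂ,
  |w.re - x| ≤ Λ / Real.log T → 1 / (Λ * Real.log T) ≤ -w.im → -w.im ≤ Λ / Real.log T →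
  Real.exp (Λ * ‖ld w‖ / Real.log T) ≤ V x

/-! ### Row ZM: factorization with multiplicities -/

def ZmStmt : Prop := ∃ C : ℝ, 1 ≤ C ∧ ∀ᶠ T : ℝ in atTop, Loc T →
  ∃ (U : Finset ℝ) (m : ℝ → ℕ), Zs C T U m

/-! ### Row CMP: comparison of heights, crude bound, segments -/

def CmpStmt : Prop := ∀ (U : Finset ℝ) (m : ℝ → ℕ) (x y : ℝ), 0 < y →
  (rs U m (x - y * I)).im = Fs U m x y ∧ ∀ w : ℂ, w.im < 0 →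
  ‖rs U m w - rs U m (x - y * I)‖ ≤
    ‖w - (x - y * I)‖ * (1 + ‖w - (x - y * I)‖ / (-w.im)) * (Fs U m x y / y)

def CrStmt : Prop := ∀ C Λ : ℝ, 1 ≤ C → 1 ≤ Λ → ∀ᶠ T : ℝ in atTop,
  ∀ (U : Finset ℝ) (m : ℝ → ℕ), Zs C T U m → ∀ w : ℂ, |w.re - 3 * T / 2| ≤ T / 20 →
  1 / (Λ * Real.log T) ≤ -w.im → -w.im ≤ 2 → ‖ld w‖ ≤ Real.log T ^ 3

def SegStmt : Prop := ∀ w w' : ℂ, 0 < w.re → 0 < w'.re →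
  (∀ s : ℝ, 0 ≤ s → s ≤ 1 → zf (w + s * (w' - w)) ≠ 0) →
  zf w' = zf w * exp (∫ s in (0 : ℝ)..1, ld (w + s * (w' - w)) * (w' - w)) ∧
  ∀ M : ℝ, (∀ s : ℝ, 0 ≤ s → s ≤ 1 → ‖ld (w + s * (w' - w))‖ ≤ M) →
    ‖zf w' / zf w‖ ≤ Real.exp (M * ‖w' - w‖) ∧ ‖zf w / zf w'‖ ≤ Real.exp (M * ‖w' - w‖)

/-! ### Row ARG: the sign of the imaginary part -/

def ArgStmt : Prop := ∀ C : ℝ, 1 ≤ C → ∀ᶠ T : ℝ in atTop,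
  ∀ (U : Finset ℝ) (m : ℝ → ℕ), Zs C T U m → ∀ ab y x : ℝ, 0 < ab → ab ≤ 4 → 0 < y → y ≤ 1 →
  |x - 3 * T / 2| ≤ T / 20 →
  (exp (-I * (ab / 2 : ℝ)) * Bq (ab / Real.log T) (x - y * I)).im ≤
    ‖Bq (ab / Real.log T) (x - y * I)‖ *
      (min 1 (beta U m (ab / Real.log T) y x) + 8 * C / Real.log T)

/-! ### Rows MOM, SF, MAJ: exponential moments of the logarithmic derivative -/

def MomStmt : Prop := ∃ K : ℝ, 0 < K ∧ ∀ (k M : ℕ) (a : ℕ → ℂ) (B y t₁ t₂ : ℝ), 1 ≤ k → 3 ≤ M →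
  0 ≤ B → 0 ≤ y → t₁ ≤ t₂ → (∀ n, ‖a n‖ ≤ B * ArithmeticFunction.vonMangoldt n) →
  ∫ t in t₁..t₂, ‖dp a M (t - y * I)‖ ^ (2 * k) ≤
    (t₂ - t₁) * (40 * k * B ^ 2 * Real.log M ^ 2) ^ k +
      K * (B * k * Real.log M) ^ (2 * k) * (M : ℝ) ^ k * (1 + k * Real.log M)

def SelStmt : Prop := ∀ C : ℝ, 1 ≤ C → ∃ C₂ : ℝ, 1 ≤ C₂ ∧ ∀ᶠ T : ℝ in atTop, ∀ ξ : ℝ, 16 ≤ ξ →
  ξ ≤ Real.log T / 8 → ∃ χ : ℕ → ℂ, (∀ n, ‖χ n‖ ≤ C₂) ∧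
  ∀ (U : Finset ℝ) (m : ℝ → ℕ), Zs C T U m → ∀ x : ℝ, |x - 3 * T / 2| ≤ T / 20 →
  Fs U m x (4 / ξ) ≤ 2 * ‖dp (fun n => (ArithmeticFunction.vonMangoldt n : ℝ) * χ n)
      ⌊Real.exp (4 * ξ)⌋₊ (x - (4 / ξ : ℝ) * I)‖ + C₂ * Real.log T ∧
  ‖rs U m (x - (4 / ξ : ℝ) * I)‖ ≤ 2 * ‖dp (fun n => (ArithmeticFunction.vonMangoldt n : ℝ) * χ n)
      ⌊Real.exp (4 * ξ)⌋₊ (x - (4 / ξ : ℝ) * I)‖ + C₂ * Real.log T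

def MajStmt : Prop := ∀ C Λ : ℝ, 1 ≤ C → 1 ≤ Λ → ∃ C₃ : ℝ, 1 ≤ C₃ ∧ ∀ᶠ T : ℝ in atTop,
  ∃ V : ℝ → ℝ, Continuous V ∧ (∀ x, 1 ≤ V x) ∧ ∫ x in T..(2 * T), V x ≤ C₃ * T ∧
  ∀ (U : Finset ℝ) (m : ℝ → ℕ), Zs C T U m → Maj T Λ V

/-! ### Rows REP and RB: the mollifier -/

def RepStmt : Prop := ∀ C Y : ℝ, 1 ≤ C → 7 ≤ Y → ∀ᶠ T : ℝ in atTop, ∃ χ : ℕ → ℂ,
  Cut T Y (64 * (1 + Real.log (1 + 4 * Y))) χ ∧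
  ∀ (U : Finset ℝ) (m : ℝ → ℕ), Zs C T U m → Rep T Y χ

def RbStmt : Prop := ∀ C Y : ℝ, 1 ≤ C → 7 ≤ Y → ∃ C₄ : ℝ, 1 ≤ C₄ ∧ ∀ᶠ T : ℝ in atTop,
  ∀ (χ : ℕ → ℂ) (U : Finset ℝ) (m : ℝ → ℕ) (ab : ℝ), Zs C T U m → Rep T Y χ → 0 < ab → ab ≤ 4 →
  ContinuousOn (BC T Y ab) (Set.Icc (3 * T / 2 - T / 30) (3 * T / 2 + T / 30)) ∧
  ∫ x in (3 * T / 2 - T / 30)..(3 * T / 2 + T / 30),
    (‖BC T Y ab x‖ ^ 4 + ‖RC T Y χ x‖ ^ 8) ≤ C₄ * T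

/-! ### Rows QL, S2, MV: the mean value on the line -/

def QlStmt : Prop := ∀ ε : ℝ, 0 < ε → ε ≤ 1 / 2 → ∀ᶠ T : ℝ in atTop,
  ∀ (N N₂ : ℕ), 1 ≤ N → (N : ℝ) ≤ T ^ (1 - ε) →
  Real.log N + ε * Real.log T / 4 ≤ Real.log N₂ → (N₂ : ℝ) ≤ T →
  ∀ (t y : ℝ) (F : ℂ → ℂ) (d r : ℕ → ℂ), 0 < y → y ≤ 1 / 4 → (∀ n, ‖r n‖ ≤ 1) →
    (∀ n : ℕ, ‖d n‖ ≤ Real.log T ^ 2 * Real.exp (ε / 16 * Real.log n)) →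
    DifferentiableOn ℂ F {z | |z.re - t| ≤ √T / 2 ∧ -1 ≤ z.im ∧ z.im ≤ -y} →
    (∀ z : ℂ, |z.re - t| ≤ √T / 2 → -1 ≤ z.im → z.im ≤ -y →
      ‖F z‖ ≤ Real.exp (Real.log T ^ 3)) →
    (∀ z : ℂ, |z.re - t| ≤ √T / 2 → z.im = -(1 / 2 + ε / 8) → F z = LSeries d (1 / 2 + I * z)) →
    ‖(∫ x in (-(√T / 2))..(√T / 2), F ((t + x : ℝ) - y * I) *
        (‖dp r N ((t + x : ℝ) - y * I)‖ ^ 2 * Real.exp (-x ^ 2) : ℝ)) -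
      ∫ x : ℝ, dp (cv d (cut r N)) N₂ ((t + x : ℝ) - y * I) *
        (starRingEnd ℂ) (dp r N ((t + x : ℝ) - y * I)) * (Real.exp (-x ^ 2) : ℝ)‖ ≤
      T ^ (-(1 / 2) : ℝ)

def S2Stmt : Prop := ∃ C : ℝ, 1 ≤ C ∧ ∀ Y ab X : ℝ, 7 ≤ Y → 3 ≤ ab → ab ≤ 4 → 1 ≤ X →
  ∀ᶠ T : ℝ in atTop, ∀ χ : ℕ → ℂ, Cut T Y X χ →
  (∀ n : ℕ, (n : ℝ) ≤ T →
    ‖cv (rc 0 (I * (ab / Real.log T : ℝ))) (cut (cf T Y χ) (len T Y)) n‖ ≤ C * X) ∧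
  Y / (2 * ab) * (Real.cos (3 * ab / 2) - Real.cos (ab / 2)) - C * X ^ 2 ≤
    (exp (-I * (ab / 2 : ℝ)) * ∑ n ∈ Finset.Icc 1 (len T Y),
      cv (rc 0 (I * (ab / Real.log T : ℝ))) (cut (cf T Y χ) (len T Y)) n *
        (starRingEnd ℂ) (cf T Y χ n) *
        (Real.exp (-(1 + 2 / (Y * Real.log T)) * Real.log n) : ℝ)).im

def MvStmt : Prop := ∃ C₁ : ℝ, 1 ≤ C₁ ∧ ∀ C Y ab X : ℝ, 1 ≤ C → 7 ≤ Y → 3 ≤ ab → ab ≤ 4 →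
  1 ≤ X → ∀ᶠ T : ℝ in atTop, ∀ (χ : ℕ → ℂ) (U : Finset ℝ) (m : ℝ → ℕ), Cut T Y X χ →
  Zs C T U m →
  T / 20 * (Y / (2 * ab) * (Real.cos (3 * ab / 2) - Real.cos (ab / 2)) - C₁ * X ^ 2) ≤
    ∫ x in (3 * T / 2 - T / 30)..(3 * T / 2 + T / 30),
      max 0 (exp (-I * (ab / 2 : ℝ)) * BC T Y ab x).im * ‖RC T Y χ x‖ ^ 2

/-! ### Row CNT: counting -/

def CntStmt : Prop := ∀ C : ℝ, 1 ≤ C → ∃ C₅ : ℝ, 1 ≤ C₅ ∧ ∀ᶠ T : ℝ in atTop,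
  ∀ (U : Finset ℝ) (m : ℝ → ℕ) (a y : ℝ), Zs C T U m → 0 < a → a ≤ 4 / Real.log T → 0 < y →
  y ≤ 1 / Real.log T →
  Continuous (beta U m a y) ∧ (∀ x, 0 ≤ beta U m a y x) ∧
  ∫ x in (3 * T / 2 - T / 30)..(3 * T / 2 + T / 30), beta U m a y x ≤
    C₅ * √((bad U m a).card * T / Real.log T) + 1

/-! ### The core statement and the final statement -/

def CoreStmt : Prop := ∀ C ab : ℝ, 1 ≤ C → Real.pi < ab → ab ≤ 4 → ∃ c : ℝ, 0 < c ∧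
  ∀ᶠ T : ℝ in atTop, ∀ (U : Finset ℝ) (m : ℝ → ℕ), Zs C T U m →
  c * T * Real.log T ≤ (bad U m (ab / Real.log T)).card

def MainStmt : Prop := ∀ ε : ℝ, 0 < ε → ∃ c : ℝ, 0 < c ∧ ∃ T₀ : ℝ, ∀ T : ℝ, T₀ ≤ T →
  (∃ ρ : ℂ, riemannZeta ρ = 0 ∧ T ≤ ρ.im ∧ ρ.im ≤ 2 * T ∧ ρ.re ≠ 1 / 2) ∨
  ∃ G : Finset ℝ, c * T * Real.log T ≤ G.card ∧ ∀ γ ∈ G, ∃ ρ ρ' : ℂ,
    riemannZeta ρ = 0 ∧ riemannZeta ρ' = 0 ∧ ρ.im = γ ∧ T ≤ ρ.im ∧ ρ.im ≤ ρ'.im ∧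
    ρ'.im ≤ 2 * T ∧ (ρ ≠ ρ' ∨ deriv riemannZeta ρ = 0) ∧
    (∀ σ : ℂ, riemannZeta σ = 0 → ¬ (ρ.im < σ.im ∧ σ.im < ρ'.im)) ∧
    ρ'.im - ρ.im < (1 / 2 + ε) * (2 * Real.pi / Real.log T)

end Pool.Agent.MP_ca0a54_nt.H29
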